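import Pool.Agent.TH27.PS.Surg
import Pool.Agent.H812R2.PI.JList

/-! Every composition of `n` substitutions with the same unimodular irreducible Pisot incidence
matrix can be changed in a bounded number of positions so that the Pisot conjecture holds. -/

set_option autoImplicit false

namespace Pool.Agent.TH27.PS
open Pool.Agent.H812R2.PI
open scoped BigOperators

theorem N_word {d : ℕ} {M : Matrix (Fin d) (Fin d) ℤ} (P : PD M) (w : List (Fin d)) :
    P.N (rv (ab w)) ≤ P.c * w.length := by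
  apply P.N_le
  intro i
  have h1 : ∑ j, rv (ab w) j = (w.length : ℝ) := by
    have := ab_sum w
    simp only [rv]
    exact_mod_cast this
  rw [h1]
  have h2 : rv (ab w) i ≤ w.length := by
    simp only [rv, ab]
    exact_mod_cast List.count_le_length
  have h3 : 0 ≤ rv (ab w) i := by
    simp only [rv, ab]
    positivity
  have h4 : P.u i ≤ 1 := by
    rw [← P.u_sum]
    exact Finset.single_le_sum (f := P.u) (fun j _ => (P.u_pos j).le) (Finset.mem_univ i)
  have h5 := P.u_pos i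
  have h6 : (0 : ℝ) ≤ w.length := Nat.cast_nonneg _
  rw [abs_le]
  constructor <;> nlinarith

theorem N_prefix {d : ℕ} {M : Matrix (Fin d) (Fin d) ℤ} (P : PD M) (hnn : ∀ i j, 0 ≤ M i j)
    (τ : Fin d → List (Fin d)) (hτ : inc τ = M) (a : Fin d) (k : ℕ) :
    P.N (rv (ab ((τ a).take k))) ≤ P.c * ∑ i, ∑ j, (M i j : ℝ) := by
  refine (N_word P _).trans (mul_le_mul_of_nonneg_left ?_ P.c_pos.le)
  have h1 : ((τ a).length : ℤ) = ∑ i, M i a := GBad_length hτ a
  have h2 : ((τ a).take k).length ≤ (τ a).length := by simp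
  have h3 : (((τ a).take k).length : ℤ) ≤ ∑ i, ∑ j, M i j := by
    calc (((τ a).take k).length : ℤ) ≤ (τ a).length := by exact_mod_cast h2
      _ = ∑ i, M i a := h1
      _ ≤ _ := Finset.sum_le_sum fun i _ =>
        Finset.single_le_sum (f := fun j => M i j) (fun j _ => hnn i j) (Finset.mem_univ a)
  exact_mod_cast h3

theorem near_composition {m : ℕ} (M : Matrix (Fin (m+1)) (Fin (m+1)) ℤ)
    (hnn : ∀ i j, 0 ≤ M i j) (hM : PisotMat M) :
    ∃ K n₀ : ℕ, ∀ n ≥ n₀, ∀ s : Fin n → (Fin (m+1) → List (Fin (m+1))),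
      (∀ i, inc (s i) = M) →
      ∃ τ : Fin (m+1) → List (Fin (m+1)), inc τ = M ^ n ∧ SemiConjToral τ ∧
        ∀ a, (τ a).length = (compList (List.ofFn s) a).length ∧
          ((Finset.range (τ a).length).filter
            (fun k => (τ a)[k]? ≠ (compList (List.ofFn s) a)[k]?)).card ≤ K := by
  classical
  obtain ⟨lam, u, hlam, hu, husum⟩ := exists_u M hnn hM
  obtain ⟨P, rfl, hPlam⟩ := exists_PD M hnn hM lam hlam u hu husum
  have hdet : IsUnit M.det := by
    rcases hM.2.1 with h | h <;> rw [h] <;> simp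
  have hr : 0 < 1 - P.rho := by linarith [P.rho_lt]
  -- constants
  set BT : ℝ := P.c * ∑ i, ∑ j, (M i j : ℝ) with hBT
  have hBT0 : 0 ≤ BT := mul_nonneg P.c_pos.le
    (Finset.sum_nonneg fun i _ => Finset.sum_nonneg fun j _ => by exact_mod_cast hnn i j)
  set B' : ℝ := BT / (1 - P.rho) + ∑ a : Fin (m+1), P.N (rv (ev a)) with hB'
  have hB'0 : 0 ≤ B' := add_nonneg (div_nonneg hBT0 hr.le)
    (Finset.sum_nonneg fun a _ => P.N_nonneg _)
  obtain ⟨B1, hB1⟩ := surgery P.u P.u_pos P.u_sum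
  set B : ℝ := max B1 (((m+1 : ℕ) : ℝ) * (P.c * B')) with hB
  have hB0 : 0 ≤ B := le_trans (mul_nonneg (Nat.cast_nonneg _) (mul_nonneg P.c_pos.le hB'0))
    (le_max_right _ _)
  obtain ⟨K0, hK0, hsurg⟩ := hB1 B (le_max_left _ _)
  set D : ℝ := (16 * P.c ^ 2 + 4) * (P.c * B) with hD
  have hWfin := window_finite P D (∑ j, P.ell j)
  set W := hWfin.toFinset with hW
  set S : Finset (Fin (m+1) × Fin (m+1) × (Fin (m+1) → ℤ)) :=
    (Finset.univ ×ˢ (Finset.univ ×ˢ W)).filter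
      (fun t => 0 < P.OV (0, t.1) (t.2.2, t.2.1) ∧ ¬ (t.2.2 = 0 ∧ t.1 = t.2.1)) with hS
  set J : ℕ := 8 * S.card + 1 with hJ
  -- geometry for large `n`
  have hlamt : Filter.Tendsto (fun n : ℕ => P.lam ^ n) Filter.atTop Filter.atTop :=
    tendsto_pow_atTop_atTop_of_one_lt P.lam_gt
  have hgeo : ∀ t ∈ S, ∀ᶠ n : ℕ in Filter.atTop,
      Geo P.u (M ^ n) K0 J t.1 t.2.1 ((M ^ n).mulVec t.2.2) := by
    intro t ht
    rw [hS, Finset.mem_filter] at ht
    obtain ⟨c, hc, n0, hg⟩ := geom P t.1 t.2.1 t.2.2 ht.2.1 ht.2.2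
    filter_upwards [Filter.eventually_ge_atTop n0,
      hlamt.eventually_ge_atTop (((K0 * J : ℕ) : ℝ) / c)] with n hn hbig
    obtain ⟨g0, g1⟩ := hg n hn
    rw [div_le_iff₀ hc] at hbig
    obtain ⟨T, t1, t2, t3, t4, t5⟩ := g1 (K0 * J) (by linarith)
    push_cast at t2 t4 t5
    exact ⟨g0, T, t1, t2, t3, t4, t5⟩
  have hgeo' : ∀ᶠ n : ℕ in Filter.atTop, ∀ t ∈ S,
      Geo P.u (M ^ n) K0 J t.1 t.2.1 ((M ^ n).mulVec t.2.2) :=
    (Filter.eventually_all_finset S).2 hgeo
  have hrho : ∀ᶠ n : ℕ in Filter.atTop, P.rho ^ n ≤ 1 / 2 := by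
    have h := tendsto_pow_atTop_nhds_zero_of_lt_one P.rho_nonneg P.rho_lt
    exact (h.eventually (gt_mem_nhds (show (0:ℝ) < 1/2 by norm_num))).mono fun n hn => hn.le
  obtain ⟨n0, hn0⟩ := Filter.eventually_atTop.mp (hgeo'.and hrho)
  refine ⟨2 * K0 * S.card, max n0 1, fun n hn s hs => ?_⟩
  obtain ⟨hG, hR⟩ := hn0 n (le_trans (le_max_left _ _) hn)
  have h1n : 1 ≤ n := le_trans (le_max_right _ _) hn
  -- the composition has bounded discrepancy
  set σ : Fin (m+1) → List (Fin (m+1)) := compList (List.ofFn s) with hσdef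
  have hl : ∀ τ ∈ List.ofFn s, inc τ = M ∧ ∀ a k, P.N (rv (ab ((τ a).take k))) ≤ BT := by
    intro τ hτ
    rw [List.mem_ofFn] at hτ
    obtain ⟨i, rfl⟩ := hτ
    exact ⟨hs i, fun a k => N_prefix P hnn _ (hs i) a k⟩
  have hpre := compList_prefix P (List.ofFn s) BT hBT0 hl
  have hσ : σ ∈ SubSet P.u (M ^ n) B := by
    refine ⟨?_, fun a k => ?_⟩
    · have := inc_compList M (List.ofFn s) (fun τ hτ => (hl τ hτ).1)
      rwa [List.length_ofFn] at this
    · have h1 : P.N (rv (ab ((σ a).take k))) ≤ B' := by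
        refine (hpre a k).trans ?_
        rw [hB']
        have := Finset.single_le_sum (f := fun a : Fin (m+1) => P.N (rv (ev a)))
          (fun i _ => P.N_nonneg _) (Finset.mem_univ a)
        have h0 := hpre a k
        linarith
      have h2 := GFin_N_dis P (ab ((σ a).take k))
      have h3 : (P.c * P.N (rv (ab ((σ a).take k)))) ^ 2 ≤ (P.c * B') ^ 2 :=
        pow_le_pow_left₀ (mul_nonneg P.c_pos.le (P.N_nonneg _))
          (mul_le_mul_of_nonneg_left h1 P.c_pos.le) 2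
      have h4 : ((m+1 : ℕ) : ℝ) * (P.c * B') ≤ B := le_max_right _ _
      have h5 : (((m+1 : ℕ) : ℝ) * (P.c * B')) ^ 2 ≤ B ^ 2 :=
        pow_le_pow_left₀ (mul_nonneg (Nat.cast_nonneg _) (mul_nonneg P.c_pos.le hB'0)) h4 2
      have h6 : (1 : ℝ) ≤ ((m+1 : ℕ) : ℝ) := by push_cast; linarith [Nat.cast_nonneg (α := ℝ) m]
      calc dis P.u (ab ((σ a).take k)) ≤ ((m+1 : ℕ) : ℝ) * (P.c * B') ^ 2 :=
            h2.trans (mul_le_mul_of_nonneg_left h3 (Nat.cast_nonneg _))
        _ ≤ (((m+1 : ℕ) : ℝ) * (P.c * B')) ^ 2 := by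
            rw [mul_pow (((m+1 : ℕ) : ℝ)) (P.c * B') 2]
            apply mul_le_mul_of_nonneg_right _ (sq_nonneg _)
            nlinarith
        _ ≤ B ^ 2 := h5
  -- surgeries
  obtain ⟨τ, hτ, hco, R, hR1, hR2⟩ := all_steps hsurg J
    (S.image fun t => (t.1, t.2.1, (M ^ n).mulVec t.2.2))
    (by
      intro t ht
      obtain ⟨x, hx, rfl⟩ := Finset.mem_image.1 ht
      exact hG x hx)
    (by
      have := Finset.card_image_le (s := S)
        (f := fun t => (t.1, t.2.1, (M ^ n).mulVec t.2.2))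
      omega) hσ
  have hUC : (P.pow n h1n).UC τ D := by
    by_contra hbad
    obtain ⟨a, b, v, h1, h2, h3⟩ := GFin_coverUC P B D n h1n τ hτ hbad
    obtain ⟨⟨h4, h5⟩, _, h6⟩ := h3
    apply h6
    have hmem : (a, b, v) ∈ S := by
      rw [hS, Finset.mem_filter]
      refine ⟨?_, h4, h5⟩
      simp only [Finset.mem_product, Finset.mem_univ, true_and, hW, Set.Finite.mem_toFinset,
        Set.mem_ofPred_eq]
      exact ⟨h1, h2⟩
    exact hco (a, b, (M ^ n).mulVec v) (Finset.mem_image.2 ⟨(a, b, v), hmem, rfl⟩)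
  refine ⟨τ, hτ.1, GFin_semi P hdet B D hB0 le_rfl n h1n hR τ hτ hUC, fun a => ?_⟩
  refine ⟨GBad_upd_length hτ hσ a, ?_⟩
  have hcard : ((Finset.range (τ a).length).filter (fun k => (τ a)[k]? ≠ (σ a)[k]?)).card ≤
      R.card := by
    apply Finset.card_le_card_of_injOn (fun k => (a, k))
    · intro k hk
      have hk' := (Finset.mem_filter.1 hk).2
      by_contra hcon
      exact hk' (hR2 a k hcon).symm
    · intro x _ y _ h
      exact (Prod.mk.inj h).2
  refine hcard.trans (hR1.trans ?_)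
  exact Nat.mul_le_mul_left _ Finset.card_image_le

end Pool.Agent.TH27.PS
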