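import Pool.Agent.H812R2.PI.GFin

/-! Deterministic surgery on substitutions with bounded discrepancy: a bounded number of changes
creates all the coincidences which are needed for the toral translation model. -/

set_option autoImplicit false

namespace Pool.Agent.TH27.PS
open Pool.Agent.H812R2.PI
open scoped BigOperators
variable {d : ℕ}

/-- outside the two windows the letters are not changed -/
theorem kap_letter {u : Fin d → ℝ} {A : Matrix (Fin d) (Fin d) ℤ} {B : ℝ} {K : ℕ}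
    {a b : Fin d} {P P' : ℕ} {σ σ' : Fin d → List (Fin d)} (hσ : σ ∈ SubSet u A B)
    (hσ' : σ' ∈ SubSet u A B) (hk : GBad_kap a b K P P' σ σ') (c : Fin d) (n : ℕ)
    (hA : ¬ (c = a ∧ P ≤ n ∧ n < P + K)) (hB : ¬ (c = b ∧ P' ≤ n ∧ n < P' + K)) :
    (σ c)[n]? = (σ' c)[n]? := by
  have hlen : (σ c).length = (σ' c).length := GBad_upd_length hσ hσ' c
  by_cases hn : n < (σ c).length
  · have hn' : n < (σ' c).length := hlen ▸ hn
    have hN0 : GBad_NI a b K P P' c n := by
      refine ⟨fun hc => ?_, fun hc => ?_⟩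
      · by_contra hcon
        apply hA; refine ⟨hc, ?_, ?_⟩ <;> omega
      · by_contra hcon
        apply hB; refine ⟨hc, ?_, ?_⟩ <;> omega
    have hN1 : GBad_NI a b K P P' c (n + 1) := by
      refine ⟨fun hc => ?_, fun hc => ?_⟩
      · by_contra hcon
        apply hA; refine ⟨hc, ?_, ?_⟩ <;> omega
      · by_contra hcon
        apply hB; refine ⟨hc, ?_, ?_⟩ <;> omega
    have q0 := hk c n hN0
    have q1 := hk c (n + 1) hN1
    rw [GBad_take_succ _ _ hn, GBad_take_succ _ _ hn', q0] at q1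
    have h := GBad_ev_inj (add_left_cancel q1)
    rw [List.getElem?_eq_getElem hn, List.getElem?_eq_getElem hn', h]
  · rw [List.getElem?_eq_none (by omega), List.getElem?_eq_none (by omega)]

/-- some window avoids the protected positions -/
theorem free_window (a b : Fin d) (K : ℕ) (t t' J : ℕ) (Q : Finset (Fin d × ℕ))
    (hQ : 2 * Q.card < J) :
    ∃ j < J, ∀ q ∈ Q, GBad_NI a b K (t + j * K) (t' + j * K) q.1 q.2 := by
  classical
  by_contra hcon
  push Not at hcon
  have h1 : ∀ j : ℕ, j < J → ∃ p : (Fin d × ℕ) × Bool, p.1 ∈ Q ∧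
      (p.2 = true → t + j * K < p.1.2 ∧ p.1.2 < t + j * K + K) ∧
      (p.2 = false → t' + j * K < p.1.2 ∧ p.1.2 < t' + j * K + K) := by
    intro j hj
    obtain ⟨q, hq, hn⟩ := hcon j hj
    unfold GBad_NI at hn
    by_cases hc : q.1 = a → q.2 ≤ t + j * K ∨ t + j * K + K ≤ q.2
    · have h2 : ¬ (q.1 = b → q.2 ≤ t' + j * K ∨ t' + j * K + K ≤ q.2) := fun h => hn ⟨hc, h⟩
      push Not at h2
      exact ⟨(q, false), hq, by simp, fun _ => h2.2⟩
    · push Not at hc
      exact ⟨(q, true), hq, fun _ => hc.2, by simp⟩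
  have : Nonempty ((Fin d × ℕ) × Bool) := ⟨((a, 0), true)⟩
  choose! f hf using h1
  have hmaps : Set.MapsTo f (Finset.range J : Set ℕ) ((Q ×ˢ (Finset.univ : Finset Bool) :
      Finset ((Fin d × ℕ) × Bool)) : Set ((Fin d × ℕ) × Bool)) := by
    intro j hj
    have := hf j (Finset.mem_range.1 hj)
    simp [this.1]
  have hcard : (Q ×ˢ (Finset.univ : Finset Bool)).card < (Finset.range J).card := by
    rw [Finset.card_product, Finset.card_range]
    simp only [Finset.card_univ, Fintype.card_bool]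
    omega
  obtain ⟨x, hx, y, hy, hxy, he⟩ := Finset.exists_ne_map_eq_of_card_lt_of_maps_to hcard hmaps
  have gx := hf x (Finset.mem_range.1 hx)
  have gy := hf y (Finset.mem_range.1 hy)
  rw [he] at gx
  have hmul : ∀ x y : ℕ, x < y → x * K + K ≤ y * K := by
    intro x y h
    calc x * K + K = (x + 1) * K := by ring
      _ ≤ y * K := Nat.mul_le_mul_right K h
  rcases hb : (f y).2 with _ | _
  · have e1 := gx.2.2 hb
    have e2 := gy.2.2 hb
    rcases lt_or_gt_of_ne hxy with h | h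
    · have := hmul x y h; omega
    · have := hmul y x h; omega
  · have e1 := gx.2.1 hb
    have e2 := gy.2.1 hb
    rcases lt_or_gt_of_ne hxy with h | h
    · have := hmul x y h; omega
    · have := hmul y x h; omega

/-- the coincidence of the pair `(0,a)`, `(s,b)` seen from the prefixes at `p`, `p'` -/
def Co (a b : Fin d) (s : Fin d → ℤ) (p p' : ℕ) (σ : Fin d → List (Fin d)) : Prop :=
  ab ((σ a).take p) = s + ab ((σ b).take p') ∧
    ab ((σ a).take (p + 1)) = s + ab ((σ b).take (p' + 1))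

theorem co_edge {a b : Fin d} {s : Fin d → ℤ} {p p' : ℕ} {σ : Fin d → List (Fin d)}
    (h : Co a b s p p' σ) (hp : p < (σ a).length) (hp' : p' < (σ b).length) :
    ∃ e, e ∈ edges 0 (σ a) ∧ e ∈ edges s (σ b) := by
  obtain ⟨e1, e2⟩ := h
  rw [GBad_take_succ _ _ hp, GBad_take_succ _ _ hp', e1, add_assoc] at e2
  have e3 := GBad_ev_inj (add_left_cancel (add_left_cancel e2))
  refine ⟨(0 + ab ((σ a).take p), (σ a)[p]), ?_, ?_⟩
  · exact mem_edges.2 ⟨_, hp, rfl⟩
  · refine mem_edges.2 ⟨_, hp', ?_⟩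
    rw [zero_add, e1, e3]

/-- one surgery -/
theorem step {u : Fin d → ℝ} {A : Matrix (Fin d) (Fin d) ℤ} {B : ℝ} {K : ℕ}
    (hsurg : SurgProp u B K) {a b : Fin d} {s : Fin d → ℤ} (hs : dis u s ≤ 1) (T : ℤ) (J : ℕ)
    (h1 : 0 ≤ T) (h2 : T + K * J ≤ ∑ i, A i a) (h3 : 0 ≤ T - ∑ i, s i)
    (h4 : T - ∑ i, s i + K * J ≤ ∑ i, A i b) (h5 : a = b → (K * J : ℤ) ≤ |∑ i, s i|)
    (Q : Finset (Fin d × ℕ)) (hQ : 2 * Q.card < J)
    {σ : Fin d → List (Fin d)} (hσ : σ ∈ SubSet u A B) :
    ∃ σ', σ' ∈ SubSet u A B ∧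
      (∀ q ∈ Q, ab ((σ q.1).take q.2) = ab ((σ' q.1).take q.2)) ∧
      (∃ p p' : ℕ, p < (σ' a).length ∧ p' < (σ' b).length ∧ Co a b s p p' σ') ∧
      ∃ R : Finset (Fin d × ℕ), R.card ≤ 2 * K ∧
        ∀ c n, (c, n) ∉ R → (σ c)[n]? = (σ' c)[n]? := by
  classical
  obtain ⟨t, ht⟩ : ∃ t : ℕ, T = t := ⟨T.toNat, by omega⟩
  obtain ⟨t', ht'⟩ : ∃ t' : ℕ, T - ∑ i, s i = t' := ⟨(T - ∑ i, s i).toNat, by omega⟩
  have hsep : a = b → (t + K * J ≤ t' ∨ t' + K * J ≤ t) := by
    intro hab
    have h6 := h5 hab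
    have h7 : ∑ i, s i = (t : ℤ) - t' := by omega
    rw [h7] at h6
    rcases le_abs.1 h6 with h8 | h8
    · right; zify; linarith
    · left; zify; linarith
  have hlenA : t + K * J ≤ (σ a).length := by
    have := GBad_length hσ.1 a
    zify; rw [this, ← ht]; exact h2
  have hlenB : t' + K * J ≤ (σ b).length := by
    have := GBad_length hσ.1 b
    zify; rw [this, ← ht']; exact h4
  obtain ⟨j, hj, hfree⟩ := free_window a b K t t' J Q hQ
  have hjK : j * K + K ≤ K * J := by
    calc j * K + K = (j + 1) * K := by ring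
      _ ≤ J * K := Nat.mul_le_mul_right K hj
      _ = K * J := by ring
  obtain ⟨σ', m1, m2, m3⟩ := GBad_good (P := t + j * K) (P' := t' + j * K) hsurg hs
    (by push_cast; omega)
    (by
      intro hab
      rcases hsep hab with h | h
      · left; omega
      · right; omega)
    hσ (by omega) (by omega)
  refine ⟨σ', m1, fun q hq => m2 q.1 q.2 (hfree q hq), ?_, ?_⟩
  · unfold GBad_bad at m3
    push Not at m3
    obtain ⟨k, hk, e1, e2⟩ := m3
    refine ⟨t + j * K + k, t' + j * K + k, ?_, ?_, e1, ?_⟩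
    · rw [GBad_upd_length m1 hσ a]; omega
    · rw [GBad_upd_length m1 hσ b]; omega
    · rw [add_assoc (t + j * K), add_assoc (t' + j * K)]; exact e2
  · refine ⟨((Finset.range K).image fun i => (a, t + j * K + i)) ∪
      ((Finset.range K).image fun i => (b, t' + j * K + i)), ?_, ?_⟩
    · refine (Finset.card_union_le _ _).trans ?_
      have e1 := Finset.card_image_le (s := Finset.range K) (f := fun i => (a, t + j * K + i))
      have e2 := Finset.card_image_le (s := Finset.range K) (f := fun i => (b, t' + j * K + i))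
      rw [Finset.card_range] at e1 e2
      omega
    · intro c n hcn
      apply kap_letter hσ m1 m2
      · rintro ⟨rfl, g1, g2⟩
        apply hcn
        rw [Finset.mem_union]; left
        rw [Finset.mem_image]
        exact ⟨n - (t + j * K), by rw [Finset.mem_range]; omega, by
          rw [Prod.mk.injEq]; exact ⟨rfl, by omega⟩⟩
      · rintro ⟨rfl, g1, g2⟩
        apply hcn
        rw [Finset.mem_union]; right
        rw [Finset.mem_image]
        exact ⟨n - (t' + j * K), by rw [Finset.mem_range]; omega, by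
          rw [Prod.mk.injEq]; exact ⟨rfl, by omega⟩⟩

/-- the geometric data of a pair which allow `J` windows of length `K` -/
def Geo (u : Fin d → ℝ) (A : Matrix (Fin d) (Fin d) ℤ) (K J : ℕ) (a b : Fin d)
    (s : Fin d → ℤ) : Prop :=
  dis u s ≤ 1 ∧ ∃ T : ℤ, 0 ≤ T ∧ T + K * J ≤ ∑ i, A i a ∧ 0 ≤ T - ∑ i, s i ∧
    T - ∑ i, s i + K * J ≤ ∑ i, A i b ∧ (a = b → (K * J : ℤ) ≤ |∑ i, s i|)

/-- all the surgeries -/
theorem all_steps {u : Fin d → ℝ} {A : Matrix (Fin d) (Fin d) ℤ} {B : ℝ} {K : ℕ}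
    (hsurg : SurgProp u B K) (J : ℕ) (S : Finset (Fin d × Fin d × (Fin d → ℤ)))
    (hS : ∀ t ∈ S, Geo u A K J t.1 t.2.1 t.2.2) (hJ : 8 * S.card < J)
    {σ : Fin d → List (Fin d)} (hσ : σ ∈ SubSet u A B) :
    ∃ σ', σ' ∈ SubSet u A B ∧
      (∀ t ∈ S, ∃ e, e ∈ edges 0 (σ' t.1) ∧ e ∈ edges t.2.2 (σ' t.2.1)) ∧
      ∃ R : Finset (Fin d × ℕ), R.card ≤ 2 * K * S.card ∧
        ∀ c n, (c, n) ∉ R → (σ c)[n]? = (σ' c)[n]? := by
  classical
  have key : ∀ S' : Finset (Fin d × Fin d × (Fin d → ℤ)), S' ⊆ S →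
      ∃ σ', σ' ∈ SubSet u A B ∧ ∃ Q : Finset (Fin d × ℕ), Q.card ≤ 4 * S'.card ∧
      (∀ t ∈ S', ∃ p p' : ℕ, p < (σ' t.1).length ∧ p' < (σ' t.2.1).length ∧
        Co t.1 t.2.1 t.2.2 p p' σ' ∧ (t.1, p) ∈ Q ∧ (t.1, p + 1) ∈ Q ∧ (t.2.1, p') ∈ Q ∧
        (t.2.1, p' + 1) ∈ Q) ∧
      ∃ R : Finset (Fin d × ℕ), R.card ≤ 2 * K * S'.card ∧
        ∀ c n, (c, n) ∉ R → (σ c)[n]? = (σ' c)[n]? := by
    intro S'
    induction S' using Finset.induction_on with
    | empty =>
      intro _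
      exact ⟨σ, hσ, ∅, by simp, by simp, ∅, by simp, fun _ _ _ => rfl⟩
    | insert x S' hx ih =>
      intro hsub
      obtain ⟨σ₁, h1, Q, h2, h3, R, h4, h5⟩ :=
        ih (fun y hy => hsub (Finset.mem_insert_of_mem hy))
      have hxS : x ∈ S := hsub (Finset.mem_insert_self _ _)
      obtain ⟨g0, T, g1, g2, g3, g4, g5⟩ := hS x hxS
      have hcard : S'.card ≤ S.card :=
        Finset.card_le_card (fun y hy => hsub (Finset.mem_insert_of_mem hy))
      obtain ⟨σ₂, k1, k2, ⟨p, p', k3, k4, k5⟩, R', k6, k7⟩ :=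
        step hsurg g0 T J g1 g2 g3 g4 g5 Q (by omega) h1
      refine ⟨σ₂, k1, Q ∪ {(x.1, p), (x.1, p + 1), (x.2.1, p'), (x.2.1, p' + 1)}, ?_, ?_,
        R ∪ R', ?_, ?_⟩
      · refine (Finset.card_union_le _ _).trans ?_
        rw [Finset.card_insert_of_notMem hx]
        have : ({(x.1, p), (x.1, p + 1), (x.2.1, p'), (x.2.1, p' + 1)} :
            Finset (Fin d × ℕ)).card ≤ 4 := Finset.card_le_four
        omega
      · intro t ht
        rcases Finset.mem_insert.1 ht with rfl | ht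
        · refine ⟨p, p', k3, k4, k5, ?_, ?_, ?_, ?_⟩ <;>
            (rw [Finset.mem_union]; right; simp)
        · obtain ⟨q, q', l1, l2, l3, l4, l5, l6, l7⟩ := h3 t ht
          refine ⟨q, q', ?_, ?_, ?_, Finset.mem_union_left _ l4, Finset.mem_union_left _ l5,
            Finset.mem_union_left _ l6, Finset.mem_union_left _ l7⟩
          · rw [GBad_upd_length k1 h1 t.1]; exact l1
          · rw [GBad_upd_length k1 h1 t.2.1]; exact l2
          · have m4 := k2 _ l4
            have m5 := k2 _ l5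
            have m6 := k2 _ l6
            have m7 := k2 _ l7
            simp only at m4 m5 m6 m7
            unfold Co at l3 ⊢
            rw [← m4, ← m5, ← m6, ← m7]
            exact l3
      · refine (Finset.card_union_le _ _).trans ?_
        rw [Finset.card_insert_of_notMem hx, Nat.mul_add, Nat.mul_one]
        omega
      · intro c n hcn
        rw [Finset.mem_union, not_or] at hcn
        rw [h5 c n hcn.1, k7 c n hcn.2]
  obtain ⟨σ', h1, Q, _, h3, R, h4, h5⟩ := key S (Finset.Subset.refl _)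
  refine ⟨σ', h1, ?_, R, h4, h5⟩
  intro t ht
  obtain ⟨p, p', l1, l2, l3, _⟩ := h3 t ht
  exact co_edge l3 l1 l2

end Pool.Agent.TH27.PS
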